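import Pool.Agent.R549.BD.L1
import Pool.Agent.R549.BD.L2
import Pool.Agent.R549.BD.L3
import Pool.Agent.R591.BR.Main
import Pool.Agent.R591.BR.G
import Pool.Agent.R591.BR.O
import Pool.Agent.R591.BR.V
import Pool.Agent.R591.BR.H
import Pool.Agent.R591.BR.U

/-!
# MP_106504_lc: the separation rank on bounded Baire class `ξ` functions

For all `2 ≤ ξ < ω₁`: every rank on the bounded Baire class `ξ` functions with the properties 1-5
is essentially equal to the separation rank `α_ξ`.
-/

set_option autoImplicit false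

namespace Pool.Agent.Results.MP_106504_lc.SeparationRank

open Pool.Agent.R591.BR
open scoped Ordinal

theorem result :
    ∀ ξ : Ordinal.{0}, 2 ≤ ξ → ξ < ω₁ →
      ∀ ρ : (X : Type) → [TopologicalSpace X] → (X → ℝ) → Ordinal.{0}, IsRank ξ ρ →
        ∀ (X : Type) [TopologicalSpace X] [PolishSpace X] (f : X → ℝ), BC ξ f →
          alpha ξ f < ω₁ ∧ Approx (ρ X f) (alpha ξ f) :=
  main_of_pieces (G.main_G (Pool.Agent.R549.BD.L3.L4 Pool.Agent.R549.BD.L1.main
    Pool.Agent.R549.BD.L2.main)) O.main_O V.main_V H.main_H U.main_U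

end Pool.Agent.Results.MP_106504_lc.SeparationRank
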